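import Pool.Agent.H37.Four.Assembly
import Pool.Agent.H51.Four.Rel
import Pool.Agent.H99.Four.Rec
import Pool.Agent.H50.Four.FL3

set_option autoImplicit false

/-!
# The four-leg formula
-/

namespace Pool.Agent.H63.Four

open Pool.Agent.H51.TA Finset Filter Topology

theorem fl2 {Φ : Fam} (hΦ : ∀ (n : ℕ) [NeZero n], IsSol (Φ n)) : FL2 Φ where
  base := G22_base hΦ
  low := G22_low hΦ
  up01 := G13_up01 hΦ
  up12 := G13_up12 hΦ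
  perm2 := G22_perm hΦ
  perm3 := G13_perm hΦ
  poly2 := G22_poly hΦ
  poly3 := G13_poly hΦ
  rec2r := G22_rec_right hΦ
  rec2l := G22_rec_left hΦ
  rec3r := G13_rec_right hΦ
  rec3l := G13_rec_left hΦ

theorem fl3 : FL3 where
  zero := FF_zero
  leg := FF_leg_perm
  perm := FF_perm
  poly := FF_poly
  rec1 := FF_rec1
  rec2 := FF_rec2

theorem G22_eq {Φ : Fam} (hΦ : ∀ (n : ℕ) [NeZero n], IsSol (Φ n)) (n : ℕ) (x0 x1 y0 y1 : ℂ)
    (Z : Fin (2 * n) → ℂ) (hinj : Function.Injective Z) (hD : ∀ i j, D (Z i) (Z j) ≠ 0)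
    (h0 : ∀ i, Z i ≠ 0) (h1 : ∀ i, Z i ≠ 1) :
    G22 Φ n x0 x1 y0 y1 Z = D x0 x1 * D y1 y0 * FF ![x0, x1, y0, y1] Z :=
  G22_eq_of hΦ (fl2 hΦ) fl3 n x0 x1 y0 y1 Z hinj hD h0 h1

/-- the four-leg function at the homogeneous point, from the limit of the determinants -/
theorem G22_hom' {Φ : Fam} (hΦ : ∀ (n : ℕ) [NeZero n], IsSol (Φ n))
    (hhom : ∀ p m : ℕ, Tendsto (fun ε : ℂ => FF (fun _ : Fin p => 1 / 2)
      (fun i : Fin m => 1 / 2 + ε * ((i : ℕ) + 1)))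
      (𝓝[≠] 0) (𝓝 ((3 / 4) ^ (m * (m - 1) + p * m) * (1 + PP p m).det))) (n : ℕ) :
    G22 Φ n (1 / 2) (1 / 2) (1 / 2) (1 / 2) (fun _ => 1 / 2) =
      (3 / 4) ^ ((2 * n + 1) * (2 * n + 2)) * (1 + PP 4 (2 * n)).det :=
  G22_hom_of hΦ (fl2 hΦ) fl3 hhom n

end Pool.Agent.H63.Four
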