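import Pool.Agent.H63.Four.Defs

set_option autoImplicit false

/-!
# The four-leg formula: assembly by interpolation
-/

namespace Pool.Agent.H63.Four

open Pool.Agent.H51.TA Finset Filter Topology

/-- the functional equations of the four-leg functions (FL2) -/
structure FL2 (Φ : Fam) : Prop where
  base : ∀ (x0 x1 y0 y1 : ℂ) (Z : Fin (2 * 0) → ℂ),
    G22 Φ 0 x0 x1 y0 y1 Z = D x0 x1 * D y1 y0
  low : ∀ (n : ℕ) (x0 x1 y0 y1 : ℂ) (Z : Fin (2 * n) → ℂ),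
    D x0 x1 * G22 Φ n x1 x0 y0 y1 Z = D x1 x0 * G22 Φ n x0 x1 y0 y1 Z
  up01 : ∀ (n : ℕ) (x y0 y1 y2 : ℂ) (Z : Fin (2 * n + 1) → ℂ),
    D y1 y0 * G13 Φ n x y1 y0 y2 Z = D y0 y1 * G13 Φ n x y0 y1 y2 Z
  up12 : ∀ (n : ℕ) (x y0 y1 y2 : ℂ) (Z : Fin (2 * n + 1) → ℂ),
    D y2 y1 * G13 Φ n x y0 y2 y1 Z = D y1 y2 * G13 Φ n x y0 y1 y2 Z
  perm2 : ∀ (n : ℕ) (x0 x1 y0 y1 : ℂ) (Z : Fin (2 * n) → ℂ)
    (_ : ∀ i j, i ≠ j → D (Z i) (Z j) ≠ 0) (σ : Equiv.Perm (Fin (2 * n))),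
    G22 Φ n x0 x1 y0 y1 (Z ∘ σ) = G22 Φ n x0 x1 y0 y1 Z
  perm3 : ∀ (n : ℕ) (x y0 y1 y2 : ℂ) (Z : Fin (2 * n + 1) → ℂ)
    (_ : ∀ i j, i ≠ j → D (Z i) (Z j) ≠ 0) (σ : Equiv.Perm (Fin (2 * n + 1))),
    G13 Φ n x y0 y1 y2 (Z ∘ σ) = G13 Φ n x y0 y1 y2 Z
  poly2 : ∀ (n : ℕ) (x0 y0 y1 : ℂ) (Z : Fin (2 * n) → ℂ),
    ∃ P : Polynomial ℂ, P.natDegree ≤ 2 * n + 1 ∧ ∀ t, G22 Φ n x0 t y0 y1 Z = P.eval t
  poly3 : ∀ (n : ℕ) (x y0 y1 : ℂ) (Z : Fin (2 * n + 1) → ℂ),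
    ∃ P : Polynomial ℂ, P.natDegree ≤ 2 * n + 3 ∧ ∀ t, G13 Φ n x y0 y1 t Z = P.eval t
  rec2r : ∀ (n : ℕ) (x0 x1 y0 y1 z : ℂ) (_ : D x1 z = 0) (Z : Fin (2 * n + 1) → ℂ),
    G22 Φ (n + 1) x0 x1 y0 y1 (cons1 z Z) = kap x1 z (cons1 x0 Z) * G13 Φ n x0 y0 y1 z Z
  rec2l : ∀ (n : ℕ) (x0 x1 y0 y1 z : ℂ) (_ : D z x0 = 0) (Z : Fin (2 * n + 1) → ℂ),
    G22 Φ (n + 1) x0 x1 y0 y1 (snoc1 Z z) = kap z x0 (cons1 x1 Z) * G13 Φ n x1 z y0 y1 Z
  rec3r : ∀ (n : ℕ) (x y0 y1 y2 z : ℂ) (_ : D z y2 = 0) (Z : Fin (2 * n) → ℂ),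
    G13 Φ n x y0 y1 y2 (Fin.cons z Z : Fin (2 * n + 1) → ℂ) =
      kap z y2 (cons2 y0 y1 Z) * G22 Φ n x z y0 y1 Z
  rec3l : ∀ (n : ℕ) (x y0 y1 y2 z : ℂ) (_ : D y0 z = 0) (Z : Fin (2 * n) → ℂ),
    G13 Φ n x y0 y1 y2 (Fin.snoc Z z : Fin (2 * n + 1) → ℂ) =
      kap y0 z (cons2 y1 y2 Z) * G22 Φ n z x y1 y2 Z

/-- the functional equations of the determinants (FL3) -/
structure FL3 : Prop where
  zero : ∀ {p : ℕ} (u : Fin p → ℂ) (Z : Fin 0 → ℂ), FF u Z = 1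
  leg : ∀ {p m : ℕ} (u : Fin p → ℂ) (Z : Fin m → ℂ) (σ : Equiv.Perm (Fin p)),
    FF (u ∘ σ) Z = FF u Z
  perm : ∀ {p m : ℕ} (u : Fin p → ℂ) (Z : Fin m → ℂ) (σ : Equiv.Perm (Fin m)),
    FF u (Z ∘ σ) = FF u Z
  poly : ∀ {p m : ℕ} (u : Fin p → ℂ) (Z : Fin m → ℂ),
    ∃ P : Polynomial ℂ, P.natDegree ≤ m ∧
      ∀ t, FF (Fin.cons t u : Fin (p + 1) → ℂ) Z = P.eval t
  rec1 : ∀ {p m : ℕ} (t z : ℂ) (u : Fin p → ℂ) (Z : Fin m → ℂ) (_ : D t z = 0)
    (_ : D z z ≠ 0) (_ : z ≠ 0) (_ : ∀ j, Z j ≠ z) (_ : ∀ j, D (Z j) z ≠ 0)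
    (_ : ∀ j, D z (Z j) ≠ 0) (_ : ∀ i j, D (Z i) (Z j) ≠ 0) (_ : Function.Injective Z),
    FF (Fin.cons t u : Fin (p + 1) → ℂ) (Fin.cons z Z : Fin (m + 1) → ℂ) =
      D z t * (∏ k, D z (u k)) * (∏ j, D z (Z j) * D (Z j) t) *
        FF (Fin.cons z u : Fin (p + 1) → ℂ) Z
  rec2 : ∀ {p m : ℕ} (t z : ℂ) (u : Fin p → ℂ) (Z : Fin m → ℂ) (_ : D z t = 0)
    (_ : D z z ≠ 0) (_ : z ≠ 1) (_ : ∀ j, Z j ≠ z) (_ : ∀ j, D (Z j) z ≠ 0)
    (_ : ∀ j, D z (Z j) ≠ 0) (_ : ∀ i j, D (Z i) (Z j) ≠ 0) (_ : Function.Injective Z),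
    FF (Fin.cons t u : Fin (p + 1) → ℂ) (Fin.cons z Z : Fin (m + 1) → ℂ) =
      D t z * (∏ k, D (u k) z) * (∏ j, D t (Z j) * D (Z j) z) *
        FF (Fin.cons z u : Fin (p + 1) → ℂ) Z

namespace AsmAux

lemma cyc {z a y : ℂ} (h1 : D z a = 0) (h2 : D a y = 0) : D y z = 0 := by
  unfold D at *
  linear_combination (1 - z) * h2 + y * h1

lemma right_inj {a y y' : ℂ} (h : D a y = 0) (h' : D a y' = 0) : y = y' := by
  unfold D at *
  linear_combination y * h' - y' * h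

lemma left_inj {z z' a : ℂ} (h : D z a = 0) (h' : D z' a = 0) : z = z' := by
  unfold D at *
  linear_combination (1 - z) * (h - h') + (z - z') * h

lemma D_rho {x : ℂ} (hx : x ≠ 1) : D x (1 - x)⁻¹ = 0 := by
  have h : 1 - x ≠ 0 := sub_ne_zero.2 (Ne.symm hx)
  unfold D
  field_simp
  ring

lemma D_rho' {y : ℂ} (hy : y ≠ 0) : D (1 - y⁻¹) y = 0 := by
  unfold D
  field_simp
  ring

lemma interp {f g : ℂ → ℂ} {N : ℕ} (hf : ∃ P : Polynomial ℂ, P.natDegree ≤ N ∧ ∀ t, f t = P.eval t)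
    (hg : ∃ P : Polynomial ℂ, P.natDegree ≤ N ∧ ∀ t, g t = P.eval t) (s : Finset ℂ)
    (hs : N < s.card) (h : ∀ t ∈ s, f t = g t) (t : ℂ) : f t = g t := by
  obtain ⟨P, hP, hfP⟩ := hf
  obtain ⟨Q, hQ, hgQ⟩ := hg
  have h0 : P - Q = 0 := by
    apply Polynomial.eq_zero_of_natDegree_lt_card_of_eval_eq_zero' (P - Q) s
    · intro a ha
      rw [Polynomial.eval_sub, ← hfP, ← hgQ, h a ha, sub_self]
    · have := Polynomial.natDegree_sub_le P Q
      omega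
  rw [hfP, hgQ, sub_eq_zero.1 h0]

/-- generic single parameter -/
def Good (a : ℂ) : Prop := a ≠ 0 ∧ a ≠ 1 ∧ D a a ≠ 0

/-- generic pair -/
def Sep (a b : ℂ) : Prop := a ≠ b ∧ D a b ≠ 0 ∧ D b a ≠ 0

lemma Sep.symm {a b : ℂ} (h : Sep a b) : Sep b a := ⟨h.1.symm, h.2.2, h.2.1⟩

/-- generic tuple -/
structure GZ {m : ℕ} (Z : Fin m → ℂ) : Prop where
  good : ∀ i, Good (Z i)
  sep : ∀ i j, i ≠ j → Sep (Z i) (Z j)

structure Gen {m : ℕ} (x y0 y1 : ℂ) (Z : Fin m → ℂ) : Prop where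
  gx : Good x
  gy0 : Good y0
  gy1 : Good y1
  gz : GZ Z
  xy0 : Sep x y0
  xy1 : Sep x y1
  yy : Sep y0 y1
  xz : ∀ i, Sep x (Z i)
  y0z : ∀ i, Sep y0 (Z i)
  y1z : ∀ i, Sep y1 (Z i)

lemma GZ.inj {m : ℕ} {Z : Fin m → ℂ} (h : GZ Z) : Function.Injective Z := by
  intro i j hij
  by_contra hne
  exact (h.sep i j hne).1 hij

lemma GZ.D_ne {m : ℕ} {Z : Fin m → ℂ} (h : GZ Z) (i j : Fin m) : D (Z i) (Z j) ≠ 0 := by
  by_cases hij : i = j
  · subst hij; exact (h.good i).2.2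
  · exact (h.sep i j hij).2.1

lemma GZ.comp {m k : ℕ} {Z : Fin m → ℂ} (h : GZ Z) {f : Fin k → Fin m}
    (hf : Function.Injective f) : GZ (Z ∘ f) :=
  ⟨fun i => h.good (f i), fun i j hij => h.sep _ _ (fun h' => hij (hf h'))⟩

lemma Gen.comp {m k : ℕ} {x y0 y1 : ℂ} {Z : Fin m → ℂ} (h : Gen x y0 y1 Z) {f : Fin k → Fin m}
    (hf : Function.Injective f) : Gen x y0 y1 (Z ∘ f) :=
  ⟨h.gx, h.gy0, h.gy1, h.gz.comp hf, h.xy0, h.xy1, h.yy, fun i => h.xz _, fun i => h.y0z _,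
    fun i => h.y1z _⟩

/-- replace the first leg by a removed strand -/
lemma Gen.first {m k : ℕ} {x y0 y1 : ℂ} {Z : Fin m → ℂ} (h : Gen x y0 y1 Z) {f : Fin k → Fin m}
    (hf : Function.Injective f) (j : Fin m) (hj : ∀ i, f i ≠ j) : Gen (Z j) y0 y1 (Z ∘ f) :=
  ⟨h.gz.good j, h.gy0, h.gy1, h.gz.comp hf, (h.y0z j).symm, (h.y1z j).symm, h.yy,
    fun i => h.gz.sep _ _ (hj i).symm, fun i => h.y0z _, fun i => h.y1z _⟩

/-- replace the second leg by a removed strand, the third by the second -/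
lemma Gen.second {m k : ℕ} {x y0 y1 : ℂ} {Z : Fin m → ℂ} (h : Gen x y0 y1 Z) {f : Fin k → Fin m}
    (hf : Function.Injective f) (j : Fin m) (hj : ∀ i, f i ≠ j) : Gen x (Z j) y0 (Z ∘ f) :=
  ⟨h.gx, h.gz.good j, h.gy0, h.gz.comp hf, h.xz j, h.xy0, (h.y0z j).symm,
    fun i => h.xz _, fun i => h.gz.sep _ _ (hj i).symm, fun i => h.y0z _⟩

lemma prod3 (f : Fin 3 → ℂ) : ∏ k, f k = f 0 * f 1 * f 2 := Fin.prod_univ_three f

lemma kap_cons2 {n : ℕ} (x y a b : ℂ) (Z : Fin (2 * n) → ℂ) :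
    kap x y (cons2 a b Z) = D y x * (D y a * D a x) * (D y b * D b x) *
      ∏ j, (D y (Z j) * D (Z j) x) := by
  unfold kap
  change D y x * ∏ j : Fin (2 * n + 2), (D y ((Fin.cons a (Fin.cons b Z) : Fin (2 * n + 2) → ℂ) j) *
    D ((Fin.cons a (Fin.cons b Z) : Fin (2 * n + 2) → ℂ) j) x) = _
  rw [Fin.prod_univ_succ, Fin.prod_univ_succ]
  simp only [Fin.cons_zero, Fin.cons_succ]
  ring

lemma kap_cons1 {n : ℕ} (x y a : ℂ) (Z : Fin (2 * n + 1) → ℂ) :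
    kap x y (cons1 a Z) = D y x * (D y a * D a x) * ∏ j, (D y (Z j) * D (Z j) x) := by
  unfold kap
  change D y x * ∏ j : Fin (2 * n + 1 + 1), (D y ((Fin.cons a Z : Fin (2 * n + 1 + 1) → ℂ) j) *
    D ((Fin.cons a Z : Fin (2 * n + 1 + 1) → ℂ) j) x) = _
  rw [Fin.prod_univ_succ]
  simp only [Fin.cons_zero, Fin.cons_succ]
  ring

lemma polyD (y : ℂ) : ∃ P : Polynomial ℂ, P.natDegree ≤ 1 ∧ ∀ t, D t y = P.eval t := by
  refine ⟨Polynomial.C y * Polynomial.X + Polynomial.C (1 - y), Polynomial.natDegree_linear_le, ?_⟩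
  intro t
  simp only [Polynomial.eval_add, Polynomial.eval_mul, Polynomial.eval_C, Polynomial.eval_X]
  unfold D
  ring

lemma polyD' (x : ℂ) : ∃ P : Polynomial ℂ, P.natDegree ≤ 1 ∧ ∀ t, D x t = P.eval t := by
  refine ⟨Polynomial.C (x - 1) * Polynomial.X + Polynomial.C 1, Polynomial.natDegree_linear_le, ?_⟩
  intro t
  simp only [Polynomial.eval_add, Polynomial.eval_mul, Polynomial.eval_C, Polynomial.eval_X]
  unfold D
  ring

lemma polyMul {f g : ℂ → ℂ} {a b : ℕ}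
    (hf : ∃ P : Polynomial ℂ, P.natDegree ≤ a ∧ ∀ t, f t = P.eval t)
    (hg : ∃ P : Polynomial ℂ, P.natDegree ≤ b ∧ ∀ t, g t = P.eval t) :
    ∃ P : Polynomial ℂ, P.natDegree ≤ a + b ∧ ∀ t, f t * g t = P.eval t := by
  obtain ⟨P, hP, hfP⟩ := hf
  obtain ⟨Q, hQ, hgQ⟩ := hg
  refine ⟨P * Q, Polynomial.natDegree_mul_le.trans (by omega), ?_⟩
  intro t
  rw [Polynomial.eval_mul, hfP, hgQ]

lemma polyC (c : ℂ) : ∃ P : Polynomial ℂ, P.natDegree ≤ 0 ∧ ∀ _t : ℂ, c = P.eval _t :=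
  ⟨Polynomial.C c, by simp, fun t => by simp⟩

variable (h3 : FL3)
include h3

lemma s01 {m : ℕ} (a b c d : ℂ) (Z : Fin m → ℂ) : FF ![b, a, c, d] Z = FF ![a, b, c, d] Z := by
  rw [← h3.leg ![a, b, c, d] Z (Equiv.swap 0 1)]
  congr 1
  funext i
  fin_cases i <;> rfl

lemma s12 {m : ℕ} (a b c d : ℂ) (Z : Fin m → ℂ) : FF ![a, c, b, d] Z = FF ![a, b, c, d] Z := by
  rw [← h3.leg ![a, b, c, d] Z (Equiv.swap 1 2)]
  congr 1
  funext i
  fin_cases i <;> rfl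

lemma s23 {m : ℕ} (a b c d : ℂ) (Z : Fin m → ℂ) : FF ![a, b, d, c] Z = FF ![a, b, c, d] Z := by
  rw [← h3.leg ![a, b, c, d] Z (Equiv.swap 2 3)]
  congr 1
  funext i
  fin_cases i <;> rfl

lemma to_front {m : ℕ} (a b c t : ℂ) (Z : Fin m → ℂ) :
    FF ![a, b, c, t] Z = FF (Fin.cons t ![a, b, c] : Fin 4 → ℂ) Z := by
  rw [← s23 h3, ← s12 h3, ← s01 h3]
  rfl

lemma to_front2 {m : ℕ} (a b c t : ℂ) (Z : Fin m → ℂ) :
    FF ![a, t, b, c] Z = FF (Fin.cons t ![a, b, c] : Fin 4 → ℂ) Z := by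
  rw [← s01 h3]
  rfl

variable {Φ : Fam} (h2 : FL2 Φ)

/-- the formula with two lower legs -/
def SA (Φ : Fam) (n : ℕ) : Prop := ∀ (x0 y0 y1 : ℂ) (Z : Fin (2 * n) → ℂ), Gen x0 y0 y1 Z →
  ∀ t, G22 Φ n x0 t y0 y1 Z = D x0 t * D y1 y0 * FF ![x0, t, y0, y1] Z

/-- the formula with three upper legs -/
def SB (Φ : Fam) (n : ℕ) : Prop := ∀ (x y0 y1 : ℂ) (Z : Fin (2 * n + 1) → ℂ), Gen x y0 y1 Z →
  ∀ t, G13 Φ n x y0 y1 t Z = D y1 y0 * D t y0 * D t y1 * FF ![x, y0, y1, t] Z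

include h2

lemma AB_R {n : ℕ} (hA : SA Φ n) {x y0 y1 z t : ℂ} {Z : Fin (2 * n) → ℂ}
    (hg : Gen x y0 y1 (Fin.cons z Z : Fin (2 * n + 1) → ℂ)) (ht : D z t = 0) :
    G13 Φ n x y0 y1 t (Fin.cons z Z) = D y1 y0 * D t y0 * D t y1 *
      FF ![x, y0, y1, t] (Fin.cons z Z : Fin (2 * n + 1) → ℂ) := by
  have hg1 : Gen x y0 y1 Z := hg.comp (Fin.succ_injective _)
  have hz : Good z := hg.gz.good 0
  have hs : ∀ j, Sep z (Z j) := fun j => hg.gz.sep 0 j.succ (Fin.succ_ne_zero j).symm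
  rw [h2.rec3r n x y0 y1 t z ht Z, kap_cons2, hA x y0 y1 Z hg1 z,
    to_front h3 x y0 y1 t (Fin.cons z Z : Fin (2 * n + 1) → ℂ), h3.rec2 t z ![x, y0, y1] Z ht hz.2.2 hz.2.1 (fun j => (hs j).1.symm) (fun j => (hs j).2.2)
      (fun j => (hs j).2.1) hg1.gz.D_ne hg1.gz.inj, prod3, to_front2 h3]
  change D t z * (D t y0 * D y0 z) * (D t y1 * D y1 z) * (∏ j, D t (Z j) * D (Z j) z) *
    (D x z * D y1 y0 * FF (Fin.cons z ![x, y0, y1] : Fin 4 → ℂ) Z) =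
    D y1 y0 * D t y0 * D t y1 * (D t z * (D x z * D y0 z * D y1 z) *
      (∏ j, D t (Z j) * D (Z j) z) * FF (Fin.cons z ![x, y0, y1] : Fin 4 → ℂ) Z)
  ring

lemma AB_L {n : ℕ} (hA : SA Φ n) {x y0 y1 z t : ℂ} {Z : Fin (2 * n) → ℂ}
    (hg : Gen x y0 y1 (Fin.cons z Z : Fin (2 * n + 1) → ℂ)) (ht : D t z = 0) :
    G13 Φ n x y0 y1 t (Fin.cons z Z) = D y1 y0 * D t y0 * D t y1 *
      FF ![x, y0, y1, t] (Fin.cons z Z : Fin (2 * n + 1) → ℂ) := by
  have hg1 : Gen z y0 y1 Z := hg.first (Fin.succ_injective _) 0 (fun i => Fin.succ_ne_zero i)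
  have hz : Good z := hg.gz.good 0
  have hs : ∀ j, Sep z (Z j) := fun j => hg.gz.sep 0 j.succ (Fin.succ_ne_zero j).symm
  have hy0z : Sep y0 z := hg.y0z 0
  have hy1z : Sep y1 z := hg.y1z 0
  have n1 : D y1 t ≠ 0 := fun h => hy1z.2.2 (cyc h ht)
  have n0 : D y0 t ≠ 0 := fun h => hy0z.2.2 (cyc h ht)
  have e1 := h2.up12 n x y0 y1 t (Fin.cons z Z)
  have e2 := h2.up01 n x y0 t y1 (Fin.cons z Z)
  have e3 : G13 Φ n x t y0 y1 (Fin.cons z Z) =
      G13 Φ n x t y0 y1 (Fin.snoc Z z : Fin (2 * n + 1) → ℂ) := by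
    rw [← h2.perm3 n x t y0 y1 (Fin.cons z Z) (fun i j _ => hg.gz.D_ne i j) (finRotate _)]
    rw [Fin.snoc_eq_cons_rotate]
    rfl
  rw [e3, h2.rec3l n x t y0 y1 z ht Z, kap_cons2, hA z y0 y1 Z hg1 x] at e2
  rw [to_front h3, h3.rec1 t z ![x, y0, y1] Z ht hz.2.2 hz.1 (fun j => (hs j).1.symm)
    (fun j => (hs j).2.2) (fun j => (hs j).2.1) hg1.gz.D_ne hg1.gz.inj, prod3]
  rw [to_front2 h3] at e2
  have e4 : FF (Fin.cons x ![z, y0, y1] : Fin 4 → ℂ) Z =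
      FF (Fin.cons z ![x, y0, y1] : Fin 4 → ℂ) Z := by
    have := s01 h3 z x y0 y1 Z
    exact this
  rw [e4] at e2
  have key : D y1 t * D y0 t * G13 Φ n x y0 y1 t (Fin.cons z Z) =
      D y1 t * D y0 t * (D y1 y0 * D t y0 * D t y1 * (D z t * (D z x * D z y0 * D z y1) *
        (∏ j, D z (Z j) * D (Z j) t) * FF (Fin.cons z ![x, y0, y1] : Fin 4 → ℂ) Z)) := by
    linear_combination (-D y0 t) * e1 - D t y1 * e2
  exact mul_left_cancel₀ (mul_ne_zero n1 n0) key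

lemma A_to_B {n : ℕ} (hA : SA Φ n) : SB Φ n := by
  classical
  intro x y0 y1 Z hg
  have hf := h2.poly3 n x y0 y1 Z
  have hgp : ∃ P : Polynomial ℂ, P.natDegree ≤ 2 * n + 3 ∧ ∀ t,
      D y1 y0 * D t y0 * D t y1 * FF ![x, y0, y1, t] Z = P.eval t := by
    obtain ⟨P, hP, hPt⟩ := polyMul (polyMul (polyMul (polyC (D y1 y0)) (polyD y0)) (polyD y1))
      (h3.poly ![x, y0, y1] Z)
    refine ⟨P, by omega, fun t => ?_⟩
    rw [← hPt, to_front h3]
  have hperm : ∀ (σ : Equiv.Perm (Fin (2 * n + 1))) (t : ℂ),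
      G13 Φ n x y0 y1 t (Z ∘ σ) = D y1 y0 * D t y0 * D t y1 * FF ![x, y0, y1, t] (Z ∘ σ) →
      G13 Φ n x y0 y1 t Z = D y1 y0 * D t y0 * D t y1 * FF ![x, y0, y1, t] Z := by
    intro σ t h
    rwa [h2.perm3 n x y0 y1 t Z (fun i j _ => hg.gz.D_ne i j), h3.perm] at h
  have hcons : ∀ σ : Equiv.Perm (Fin (2 * n + 1)),
      Z ∘ σ = (Fin.cons (Z (σ 0)) (Z ∘ σ ∘ Fin.succ) : Fin (2 * n + 1) → ℂ) := by
    intro σ
    funext i
    refine Fin.cases ?_ (fun j => ?_) i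
    · rfl
    · rfl
  have hgσ : ∀ σ : Equiv.Perm (Fin (2 * n + 1)),
      Gen x y0 y1 (Fin.cons (Z (σ 0)) (Z ∘ σ ∘ Fin.succ) : Fin (2 * n + 1) → ℂ) := by
    intro σ
    rw [← hcons σ]
    exact hg.comp σ.injective
  -- the values at the special points
  have hR : ∀ j t, D (Z j) t = 0 →
      G13 Φ n x y0 y1 t Z = D y1 y0 * D t y0 * D t y1 * FF ![x, y0, y1, t] Z := by
    intro j t ht
    apply hperm (Equiv.swap 0 j) t
    rw [hcons (Equiv.swap 0 j)]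
    refine AB_R h3 h2 hA (hgσ _) ?_
    rw [Equiv.swap_apply_left]
    exact ht
  have hL : ∀ j t, D t (Z j) = 0 →
      G13 Φ n x y0 y1 t Z = D y1 y0 * D t y0 * D t y1 * FF ![x, y0, y1, t] Z := by
    intro j t ht
    apply hperm (Equiv.swap 0 j) t
    rw [hcons (Equiv.swap 0 j)]
    refine AB_L h3 h2 hA (hgσ _) ?_
    rw [Equiv.swap_apply_left]
    exact ht
  have h1 : ∀ t, D t y1 = 0 →
      G13 Φ n x y0 y1 t Z = D y1 y0 * D t y0 * D t y1 * FF ![x, y0, y1, t] Z := by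
    intro t ht
    have e1 := h2.up12 n x y0 y1 t Z
    rw [ht, zero_mul] at e1
    have n1 : D y1 t ≠ 0 := fun h => hg.gy1.2.2 (cyc h ht)
    rw [ht, mul_zero, zero_mul]
    exact (mul_eq_zero.1 e1.symm).resolve_left n1
  have h0 : ∀ t, D t y0 = 0 →
      G13 Φ n x y0 y1 t Z = D y1 y0 * D t y0 * D t y1 * FF ![x, y0, y1, t] Z := by
    intro t ht
    have e1 := h2.up12 n x y0 y1 t Z
    have e2 := h2.up01 n x y0 t y1 Z
    have n1 : D y1 t ≠ 0 := fun h => hg.yy.2.1 (cyc h ht)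
    have n0 : D y0 t ≠ 0 := fun h => hg.gy0.2.2 (cyc h ht)
    rw [ht, zero_mul] at e2
    rw [(mul_eq_zero.1 e2.symm).resolve_left n0, mul_zero] at e1
    rw [ht, mul_zero, zero_mul, zero_mul]
    exact (mul_eq_zero.1 e1.symm).resolve_left n1
  set a0 : ℂ := 1 - y0⁻¹ with ha0
  set a1 : ℂ := 1 - y1⁻¹ with ha1
  set b : ℂ := 1 - (Z 0)⁻¹ with hb
  have Da0 : D a0 y0 = 0 := D_rho' hg.gy0.1
  have Da1 : D a1 y1 = 0 := D_rho' hg.gy1.1
  have Db : D b (Z 0) = 0 := D_rho' (hg.gz.good 0).1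
  have Dc : ∀ j, D (Z j) (1 - Z j)⁻¹ = 0 := fun j => D_rho (hg.gz.good j).2.1
  have hinj : Function.Injective (fun j => (1 - Z j)⁻¹) := by
    intro i j hij
    apply hg.gz.inj
    simp only at hij
    refine left_inj (Dc i) ?_
    rw [hij]
    exact Dc j
  set T : Finset ℂ := Finset.univ.image (fun j => (1 - Z j)⁻¹) with hT
  have hTcard : T.card = 2 * n + 1 := by
    rw [hT, Finset.card_image_of_injective _ hinj, Finset.card_univ, Fintype.card_fin]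
  have hbT : b ∉ T := by
    intro h
    obtain ⟨j, _, hj⟩ := Finset.mem_image.1 h
    have := Dc j
    rw [hj] at this
    exact hg.gz.D_ne 0 j (cyc this Db)
  have ha1b : a1 ∉ insert b T := by
    intro h
    rcases Finset.mem_insert.1 h with h | h
    · rw [h] at Da1
      exact (hg.y1z 0).1 (right_inj Da1 Db)
    · obtain ⟨j, _, hj⟩ := Finset.mem_image.1 h
      have := Dc j
      rw [hj] at this
      exact (hg.y1z j).2.1 (cyc this Da1)
  have ha0b : a0 ∉ insert a1 (insert b T) := by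
    intro h
    rcases Finset.mem_insert.1 h with h | h
    · rw [h] at Da0
      exact hg.yy.1 (right_inj Da0 Da1)
    rcases Finset.mem_insert.1 h with h | h
    · rw [h] at Da0
      exact (hg.y0z 0).1 (right_inj Da0 Db)
    · obtain ⟨j, _, hj⟩ := Finset.mem_image.1 h
      have := Dc j
      rw [hj] at this
      exact (hg.y0z j).2.1 (cyc this Da0)
  refine interp hf hgp (insert a0 (insert a1 (insert b T))) ?_ ?_
  · rw [Finset.card_insert_of_notMem ha0b, Finset.card_insert_of_notMem ha1b,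
      Finset.card_insert_of_notMem hbT, hTcard]
    omega
  · intro t ht
    rcases Finset.mem_insert.1 ht with rfl | ht
    · exact h0 _ Da0
    rcases Finset.mem_insert.1 ht with rfl | ht
    · exact h1 _ Da1
    rcases Finset.mem_insert.1 ht with rfl | ht
    · exact hL 0 _ Db
    · obtain ⟨j, _, rfl⟩ := Finset.mem_image.1 ht
      exact hR j _ (Dc j)

lemma BA_R {n : ℕ} (hB : SB Φ n) {x0 y0 y1 z t : ℂ} {Z : Fin (2 * n + 1) → ℂ}
    (hg : Gen x0 y0 y1 (Fin.cons z Z : Fin (2 * n + 1 + 1) → ℂ)) (ht : D t z = 0) :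
    G22 Φ (n + 1) x0 t y0 y1 (cons1 z Z) = D x0 t * D y1 y0 *
      FF ![x0, t, y0, y1] (Fin.cons z Z : Fin (2 * n + 1 + 1) → ℂ) := by
  have hg1 : Gen x0 y0 y1 Z := hg.comp (Fin.succ_injective _)
  have hz : Good z := hg.gz.good 0
  have hs : ∀ j, Sep z (Z j) := fun j => hg.gz.sep 0 j.succ (Fin.succ_ne_zero j).symm
  rw [h2.rec2r n x0 t y0 y1 z ht Z, kap_cons1, hB x0 y0 y1 Z hg1 z,
    to_front2 h3 x0 y0 y1 t (Fin.cons z Z : Fin (2 * n + 1 + 1) → ℂ),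
    h3.rec1 t z ![x0, y0, y1] Z ht hz.2.2 hz.1 (fun j => (hs j).1.symm) (fun j => (hs j).2.2)
      (fun j => (hs j).2.1) hg1.gz.D_ne hg1.gz.inj, prod3, to_front h3]
  change D z t * (D z x0 * D x0 t) * (∏ j, D z (Z j) * D (Z j) t) *
    (D y1 y0 * D z y0 * D z y1 * FF (Fin.cons z ![x0, y0, y1] : Fin 4 → ℂ) Z) =
    D x0 t * D y1 y0 * (D z t * (D z x0 * D z y0 * D z y1) *
      (∏ j, D z (Z j) * D (Z j) t) * FF (Fin.cons z ![x0, y0, y1] : Fin 4 → ℂ) Z)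
  ring

lemma BA_L {n : ℕ} (hB : SB Φ n) {x0 y0 y1 z t : ℂ} {Z : Fin (2 * n + 1) → ℂ}
    (hg : Gen x0 y0 y1 (Fin.cons z Z : Fin (2 * n + 1 + 1) → ℂ)) (ht : D z t = 0) :
    G22 Φ (n + 1) x0 t y0 y1 (cons1 z Z) = D x0 t * D y1 y0 *
      FF ![x0, t, y0, y1] (Fin.cons z Z : Fin (2 * n + 1 + 1) → ℂ) := by
  have hg1 : Gen x0 z y0 Z := hg.second (Fin.succ_injective _) 0 (fun i => Fin.succ_ne_zero i)
  have hz : Good z := hg.gz.good 0
  have hs : ∀ j, Sep z (Z j) := fun j => hg.gz.sep 0 j.succ (Fin.succ_ne_zero j).symm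
  have hxz : Sep x0 z := hg.xz 0
  have n1 : D t x0 ≠ 0 := fun h => hxz.2.1 (cyc ht h)
  have e1 := h2.low (n + 1) x0 t y0 y1 (cons1 z Z)
  have e3 : G22 Φ (n + 1) t x0 y0 y1 (cons1 z Z) = G22 Φ (n + 1) t x0 y0 y1 (snoc1 Z z) := by
    have h := h2.perm2 (n + 1) t x0 y0 y1 (cons1 z Z) (fun i j _ => hg.gz.D_ne i j)
      (finRotate (2 * n + 1 + 1))
    rw [← h]
    unfold snoc1
    rw [Fin.snoc_eq_cons_rotate]
    rfl
  rw [e3, h2.rec2l n t x0 y0 y1 z ht Z, kap_cons1, hB x0 z y0 Z hg1 y1] at e1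
  rw [to_front2 h3, h3.rec2 t z ![x0, y0, y1] Z ht hz.2.2 hz.2.1 (fun j => (hs j).1.symm)
    (fun j => (hs j).2.2) (fun j => (hs j).2.1) hg1.gz.D_ne hg1.gz.inj, prod3]
  have e4 : FF ![x0, z, y0, y1] Z = FF (Fin.cons z ![x0, y0, y1] : Fin 4 → ℂ) Z :=
    to_front2 h3 x0 y0 y1 z Z
  rw [e4] at e1
  have key : D t x0 * G22 Φ (n + 1) x0 t y0 y1 (cons1 z Z) =
      D t x0 * (D x0 t * D y1 y0 * (D t z * (D x0 z * D y0 z * D y1 z) *
        (∏ j, D t (Z j) * D (Z j) z) * FF (Fin.cons z ![x0, y0, y1] : Fin 4 → ℂ) Z)) := by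
    linear_combination (-1 : ℂ) * e1
  exact mul_left_cancel₀ n1 key

lemma B_to_A {n : ℕ} (hB : SB Φ n) : SA Φ (n + 1) := by
  classical
  intro x0 y0 y1 Z hg
  have hf := h2.poly2 (n + 1) x0 y0 y1 Z
  have hgp : ∃ P : Polynomial ℂ, P.natDegree ≤ 2 * (n + 1) + 1 ∧ ∀ t,
      D x0 t * D y1 y0 * FF ![x0, t, y0, y1] Z = P.eval t := by
    obtain ⟨P, hP, hPt⟩ := polyMul (polyMul (polyD' x0) (polyC (D y1 y0)))
      (h3.poly ![x0, y0, y1] Z)
    refine ⟨P, by omega, fun t => ?_⟩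
    rw [← hPt, to_front2 h3]
  have hperm : ∀ (σ : Equiv.Perm (Fin (2 * (n + 1)))) (t : ℂ),
      G22 Φ (n + 1) x0 t y0 y1 (Z ∘ σ) = D x0 t * D y1 y0 * FF ![x0, t, y0, y1] (Z ∘ σ) →
      G22 Φ (n + 1) x0 t y0 y1 Z = D x0 t * D y1 y0 * FF ![x0, t, y0, y1] Z := by
    intro σ t h
    rwa [h2.perm2 (n + 1) x0 t y0 y1 Z (fun i j _ => hg.gz.D_ne i j), h3.perm] at h
  have hcons : ∀ σ : Equiv.Perm (Fin (2 * n + 1 + 1)),
      (Z ∘ σ : Fin (2 * n + 1 + 1) → ℂ) =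
        (Fin.cons (Z (σ 0)) (Z ∘ σ ∘ Fin.succ) : Fin (2 * n + 1 + 1) → ℂ) := by
    intro σ
    funext i
    refine Fin.cases ?_ (fun j => ?_) i
    · rfl
    · rfl
  have hgσ : ∀ σ : Equiv.Perm (Fin (2 * n + 1 + 1)),
      Gen x0 y0 y1 (Fin.cons (Z (σ 0)) (Z ∘ σ ∘ Fin.succ) : Fin (2 * n + 1 + 1) → ℂ) := by
    intro σ
    rw [← hcons σ]
    exact hg.comp (f := σ) σ.injective
  have hR : ∀ (j : Fin (2 * n + 1 + 1)) t, D t (Z j) = 0 →
      G22 Φ (n + 1) x0 t y0 y1 Z = D x0 t * D y1 y0 * FF ![x0, t, y0, y1] Z := by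
    intro j t ht
    apply hperm (Equiv.swap (0 : Fin (2 * n + 1 + 1)) j) t
    have h := BA_R h3 h2 hB (hgσ (Equiv.swap 0 j)) (t := t) (by
      rw [Equiv.swap_apply_left]; exact ht)
    rw [← hcons] at h
    rw [← h]
    congr 1
    exact hcons _
  have hL : ∀ (j : Fin (2 * n + 1 + 1)) t, D (Z j) t = 0 →
      G22 Φ (n + 1) x0 t y0 y1 Z = D x0 t * D y1 y0 * FF ![x0, t, y0, y1] Z := by
    intro j t ht
    apply hperm (Equiv.swap (0 : Fin (2 * n + 1 + 1)) j) t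
    have h := BA_L h3 h2 hB (hgσ (Equiv.swap 0 j)) (t := t) (by
      rw [Equiv.swap_apply_left]; exact ht)
    rw [← hcons] at h
    rw [← h]
    congr 1
    exact hcons _
  have h0 : ∀ t, D x0 t = 0 →
      G22 Φ (n + 1) x0 t y0 y1 Z = D x0 t * D y1 y0 * FF ![x0, t, y0, y1] Z := by
    intro t ht
    have e1 := h2.low (n + 1) x0 t y0 y1 Z
    rw [ht, zero_mul] at e1
    have n1 : D t x0 ≠ 0 := fun h => hg.gx.2.2 (cyc ht h)
    rw [ht, zero_mul, zero_mul]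
    exact (mul_eq_zero.1 e1.symm).resolve_left n1
  set Z' : Fin (2 * n + 1 + 1) → ℂ := Z with hZ'
  have hgz : GZ Z' := hg.gz
  set a : ℂ := (1 - x0)⁻¹ with ha
  set b : ℂ := (1 - Z' 0)⁻¹ with hb
  have Da : D x0 a = 0 := D_rho hg.gx.2.1
  have Db : D (Z' 0) b = 0 := D_rho (hgz.good 0).2.1
  have Dc : ∀ j, D (1 - (Z' j)⁻¹) (Z' j) = 0 := fun j => D_rho' (hgz.good j).1
  have hinj : Function.Injective (fun j => 1 - (Z' j)⁻¹) := by
    intro i j hij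
    apply hgz.inj
    simp only at hij
    refine right_inj (Dc i) ?_
    rw [hij]
    exact Dc j
  set T : Finset ℂ := Finset.univ.image (fun j => 1 - (Z' j)⁻¹) with hT
  have hTcard : T.card = 2 * n + 1 + 1 := by
    rw [hT, Finset.card_image_of_injective _ hinj, Finset.card_univ, Fintype.card_fin]
  have hbT : b ∉ T := by
    intro h
    obtain ⟨j, _, hj⟩ := Finset.mem_image.1 h
    have := Dc j
    rw [hj] at this
    exact hgz.D_ne j 0 (cyc Db this)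
  have haT : a ∉ insert b T := by
    intro h
    rcases Finset.mem_insert.1 h with h | h
    · rw [h] at Da
      exact (hg.xz (0 : Fin (2 * n + 1 + 1))).1 (left_inj Da Db)
    · obtain ⟨j, _, hj⟩ := Finset.mem_image.1 h
      have := Dc j
      rw [hj] at this
      exact (hg.xz j).2.2 (cyc Da this)
  refine interp hf hgp (insert a (insert b T)) ?_ ?_
  · rw [Finset.card_insert_of_notMem haT, Finset.card_insert_of_notMem hbT, hTcard]
    omega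
  · intro t ht
    rcases Finset.mem_insert.1 ht with rfl | ht
    · exact h0 _ Da
    rcases Finset.mem_insert.1 ht with rfl | ht
    · exact hL 0 _ Db
    · obtain ⟨j, _, rfl⟩ := Finset.mem_image.1 ht
      exact hR j _ (Dc j)

omit h3 h2 in
lemma eq_off {f g : ℂ → ℂ} (hf : Continuous f) (hg : Continuous g) {s : Set ℂ} (hs : s.Finite)
    (h : ∀ t, t ∉ s → f t = g t) (t : ℂ) : f t = g t := by
  have hd : Dense sᶜ := hs.countable.dense_compl ℂ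
  have := Continuous.ext_on hd hf hg (fun x hx => h x hx)
  exact congrFun this t

omit h3 h2 in
lemma fin_right {y : ℂ} : {t : ℂ | D t y = 0}.Finite := by
  refine Set.Subsingleton.finite ?_
  intro a ha b hb
  exact left_inj ha hb

omit h3 h2 in
lemma fin_left {y : ℂ} : {t : ℂ | D y t = 0}.Finite := by
  refine Set.Subsingleton.finite ?_
  intro a ha b hb
  exact right_inj ha hb

omit h3 h2 in
lemma fin_diag : {t : ℂ | D t t = 0}.Finite := by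
  have hp : (Polynomial.X ^ 2 - Polynomial.X + 1 : Polynomial ℂ) ≠ 0 := by
    intro h
    have := congrArg (Polynomial.eval 0) h
    simp at this
  refine (Finset.finite_toSet (Polynomial.X ^ 2 - Polynomial.X + 1 : Polynomial ℂ).roots.toFinset).subset ?_
  intro t ht
  rw [Finset.mem_coe, Multiset.mem_toFinset, Polynomial.mem_roots hp, Polynomial.IsRoot.def]
  simp only [Polynomial.eval_add, Polynomial.eval_sub, Polynomial.eval_pow, Polynomial.eval_X,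
    Polynomial.eval_one]
  have h1 : D t t = 0 := ht
  unfold D at h1
  linear_combination h1

omit h3 h2 in
lemma fin_good : {t : ℂ | ¬ Good t}.Finite := by
  refine (((Set.finite_singleton (0 : ℂ)).union (Set.finite_singleton (1 : ℂ))).union
    fin_diag).subset ?_
  intro t ht
  by_contra h
  apply ht
  simp only [Set.mem_union, Set.mem_singleton_iff, Set.mem_ofPred_eq, not_or] at h
  exact ⟨h.1.1, h.1.2, h.2⟩

omit h3 h2 in
lemma fin_sep (w : ℂ) : {t : ℂ | ¬ Sep t w}.Finite := by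
  refine (((Set.finite_singleton w).union (fin_right (y := w))).union
    (fin_left (y := w))).subset ?_
  intro t ht
  by_contra h
  apply ht
  simp only [Set.mem_union, Set.mem_singleton_iff, Set.mem_ofPred_eq, not_or] at h
  exact ⟨h.1.1, h.1.2, h.2⟩

omit h3 h2 in
lemma cont_of_isSol {n : ℕ} [NeZero n] {Φ' : (Fin (2 * n) → ℂ) → Pat (2 * n) → ℂ}
    (hΦ' : IsSol Φ') (π : Pat (2 * n)) : Continuous (fun a => Φ' a π) := by
  obtain ⟨P, _, hP⟩ := hΦ'.poly π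
  have h1 : (fun a => Φ' a π) = fun a => MvPolynomial.eval a P := funext hP
  rw [h1]
  exact MvPolynomial.continuous_eval P

omit h3 h2 in
lemma cont_Phi {Φ : Fam} (hΦ : ∀ (n : ℕ) [NeZero n], IsSol (Φ n)) {X : Type} [TopologicalSpace X]
    (n : ℕ) (f : X → Fin (2 * (n + 1)) → ℂ) (hf : Continuous f) (π : Pat (2 * (n + 1))) :
    Continuous fun x => Φ (n + 1) (f x) π :=
  (cont_of_isSol (hΦ (n + 1)) π).comp hf

omit h3 h2 in
lemma cont_cons2 {X : Type} [TopologicalSpace X] {n : ℕ} {a b : X → ℂ} {Z : X → Fin (2 * n) → ℂ}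
    (ha : Continuous a) (hb : Continuous b) (hZ : Continuous Z) :
    Continuous fun x => cons2 (a x) (b x) (Z x) := by
  refine continuous_pi ?_
  intro i
  refine Fin.cases (motive := fun i : Fin (2 * n + 1 + 1) =>
    Continuous fun x => cons2 (a x) (b x) (Z x) i) ?_ ?_ i
  · exact ha
  · intro j
    refine Fin.cases (motive := fun j : Fin (2 * n + 1) =>
      Continuous fun x => cons2 (a x) (b x) (Z x) j.succ) ?_ ?_ j
    · exact hb
    · intro k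
      exact (continuous_apply k).comp hZ

omit h3 h2 in
lemma cont_G22 {Φ : Fam} (hΦ : ∀ (n : ℕ) [NeZero n], IsSol (Φ n)) {X : Type} [TopologicalSpace X]
    (n : ℕ) {a b c d : X → ℂ} {Z : X → Fin (2 * n) → ℂ} (ha : Continuous a) (hb : Continuous b)
    (hc : Continuous c) (hd : Continuous d) (hZ : Continuous Z) :
    Continuous fun x => G22 Φ n (a x) (b x) (c x) (d x) (Z x) := by
  unfold G22
  refine continuous_finsetSum _ fun π _ => continuous_finsetSum _ fun π' _ => ?_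
  refine ((cont_Phi hΦ n _ (cont_cons2 ha hb hZ) π).mul (cont_Phi hΦ n _ ?_ π')).mul
    continuous_const
  refine continuous_pi fun i => ?_
  exact continuous_const.sub ((continuous_apply i).comp (cont_cons2 hc hd hZ))

omit h3 h2 in
lemma cont_D {X : Type} [TopologicalSpace X] {a b : X → ℂ} (ha : Continuous a)
    (hb : Continuous b) : Continuous fun x => D (a x) (b x) := by
  unfold D
  exact (continuous_const.sub hb).add (ha.mul hb)

omit h3 h2 in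
lemma cont_FF {X : Type} [TopologicalSpace X] {p m : ℕ} {u : X → Fin p → ℂ} (hu : Continuous u)
    (Z : Fin m → ℂ) : Continuous fun x => FF (u x) Z := by
  unfold FF
  refine (Continuous.mul ?_ continuous_const).mul continuous_const
  refine Continuous.matrix_det ?_
  refine continuous_pi fun i => continuous_pi fun j => ?_
  refine Continuous.add (Continuous.div_const ?_ _) (Continuous.div_const ?_ _)
  · unfold V1
    exact continuous_finsetProd _ fun k _ => cont_D continuous_const ((continuous_apply k).comp hu)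
  · unfold V2
    exact continuous_finsetProd _ fun k _ => cont_D ((continuous_apply k).comp hu) continuous_const

omit h3 h2 in
lemma cont_vec4 {X : Type} [TopologicalSpace X] {a b c d : X → ℂ} (ha : Continuous a)
    (hb : Continuous b) (hc : Continuous c) (hd : Continuous d) :
    Continuous fun x => (![a x, b x, c x, d x] : Fin 4 → ℂ) := by
  refine continuous_pi fun i => ?_
  fin_cases i
  · exact ha
  · exact hb
  · exact hc
  · exact hd

omit h3 h2 in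
lemma cont_rhs {X : Type} [TopologicalSpace X] {m : ℕ} {a b c d : X → ℂ} (ha : Continuous a)
    (hb : Continuous b) (hc : Continuous c) (hd : Continuous d) (Z : Fin m → ℂ) :
    Continuous fun x => D (a x) (b x) * D (d x) (c x) * FF ![a x, b x, c x, d x] Z :=
  ((cont_D ha hb).mul (cont_D hd hc)).mul (cont_FF (cont_vec4 ha hb hc hd) Z)

lemma SA_all (n : ℕ) : SA Φ n := by
  induction n with
  | zero =>
    intro x0 y0 y1 Z _ t
    have h := h3.zero ![x0, t, y0, y1] (Z : Fin 0 → ℂ)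
    rw [h2.base]
    change _ = D x0 t * D y1 y0 * FF ![x0, t, y0, y1] (Z : Fin 0 → ℂ)
    rw [h, mul_one]
  | succ n ih => exact B_to_A h3 h2 (A_to_B h3 h2 ih)

end AsmAux

open AsmAux

/-- The four-leg formula, from the functional equations. -/
theorem G22_eq_of {Φ : Fam} (hΦ : ∀ (n : ℕ) [NeZero n], IsSol (Φ n)) (h2 : FL2 Φ) (h3 : FL3)
    (n : ℕ) (x0 x1 y0 y1 : ℂ) (Z : Fin (2 * n) → ℂ) (hinj : Function.Injective Z)
    (hD : ∀ i j, D (Z i) (Z j) ≠ 0) (h0 : ∀ i, Z i ≠ 0) (h1 : ∀ i, Z i ≠ 1) :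
    G22 Φ n x0 x1 y0 y1 Z = D x0 x1 * D y1 y0 * FF ![x0, x1, y0, y1] Z := by
  have hZ : GZ Z := ⟨fun i => ⟨h0 i, h1 i, hD i i⟩,
    fun i j hij => ⟨fun h => hij (hinj h), hD i j, hD j i⟩⟩
  have fz : {t : ℂ | ∃ i, ¬ Sep t (Z i)}.Finite := by
    have : {t : ℂ | ∃ i, ¬ Sep t (Z i)} = ⋃ i, {t : ℂ | ¬ Sep t (Z i)} := by
      ext t; simp
    rw [this]
    exact Set.finite_iUnion fun i => fin_sep (Z i)
  -- step 1: all `x0`
  have st1 : ∀ y0 y1 : ℂ, Good y0 → Good y1 → Sep y0 y1 → (∀ i, Sep y0 (Z i)) →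
      (∀ i, Sep y1 (Z i)) → ∀ x1 x0 : ℂ,
      G22 Φ n x0 x1 y0 y1 Z = D x0 x1 * D y1 y0 * FF ![x0, x1, y0, y1] Z := by
    intro y0 y1 g0 g1 gy gz0 gz1 x1
    refine eq_off (cont_G22 hΦ n continuous_id continuous_const continuous_const continuous_const
      continuous_const) (cont_rhs continuous_id continuous_const continuous_const
      continuous_const Z) (((fin_good.union (fin_sep y0)).union (fin_sep y1)).union fz) ?_
    intro x0 hx
    simp only [Set.mem_union, Set.mem_ofPred_eq, not_or, not_exists, not_not] at hx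
    obtain ⟨⟨⟨a1, a2⟩, a3⟩, a4⟩ := hx
    exact SA_all h3 h2 n x0 y0 y1 Z ⟨a1, g0, g1, hZ, a2, a3, gy, a4, gz0, gz1⟩ x1
  -- step 2: all `y0`
  have st2 : ∀ y1 : ℂ, Good y1 → (∀ i, Sep y1 (Z i)) → ∀ x1 x0 y0 : ℂ,
      G22 Φ n x0 x1 y0 y1 Z = D x0 x1 * D y1 y0 * FF ![x0, x1, y0, y1] Z := by
    intro y1 g1 gz1 x1 x0
    refine eq_off (cont_G22 hΦ n continuous_const continuous_const continuous_id continuous_const
      continuous_const) (cont_rhs continuous_const continuous_const continuous_id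
      continuous_const Z) ((fin_good.union (fin_sep y1)).union fz) ?_
    intro y0 hy
    simp only [Set.mem_union, Set.mem_ofPred_eq, not_or, not_exists, not_not] at hy
    obtain ⟨⟨a1, a2⟩, a3⟩ := hy
    exact st1 y0 y1 a1 g1 a2 a3 gz1 x1 x0
  -- step 3: all `y1`
  revert y1
  refine eq_off (cont_G22 hΦ n continuous_const continuous_const continuous_const continuous_id
    continuous_const) (cont_rhs continuous_const continuous_const continuous_const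
    continuous_id Z) (fin_good.union fz) ?_
  intro y1 hy
  simp only [Set.mem_union, Set.mem_ofPred_eq, not_or, not_exists, not_not] at hy
  exact st2 y1 hy.1 hy.2 x1 x0 y0

/-- the four-leg function at the homogeneous point -/
theorem G22_hom_of {Φ : Fam} (hΦ : ∀ (n : ℕ) [NeZero n], IsSol (Φ n)) (h2 : FL2 Φ) (h3 : FL3)
    (hhom : ∀ p m : ℕ, Tendsto (fun ε : ℂ => FF (fun _ : Fin p => 1 / 2)
      (fun i : Fin m => 1 / 2 + ε * ((i : ℕ) + 1)))
      (𝓝[≠] 0) (𝓝 ((3 / 4) ^ (m * (m - 1) + p * m) * (1 + PP p m).det))) (n : ℕ) :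
    G22 Φ n (1 / 2) (1 / 2) (1 / 2) (1 / 2) (fun _ => 1 / 2) =
      (3 / 4) ^ ((2 * n + 1) * (2 * n + 2)) * (1 + PP 4 (2 * n)).det := by
  have hDh : D (1 / 2 : ℂ) (1 / 2) = 3 / 4 := by unfold D; norm_num
  have hZc : Continuous fun ε : ℂ => (fun i : Fin (2 * n) => 1 / 2 + ε * ((i : ℕ) + 1 : ℂ)) :=
    continuous_pi fun i => continuous_const.add (continuous_id.mul continuous_const)
  have t1 : Tendsto (fun ε : ℂ => G22 Φ n (1 / 2) (1 / 2) (1 / 2) (1 / 2)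
      (fun i : Fin (2 * n) => 1 / 2 + ε * ((i : ℕ) + 1 : ℂ))) (𝓝[≠] 0)
      (𝓝 (G22 Φ n (1 / 2) (1 / 2) (1 / 2) (1 / 2) (fun _ => 1 / 2))) := by
    have hc : Continuous fun ε : ℂ => G22 Φ n (1 / 2) (1 / 2) (1 / 2) (1 / 2)
      (fun i : Fin (2 * n) => 1 / 2 + ε * ((i : ℕ) + 1 : ℂ)) :=
      cont_G22 hΦ n continuous_const continuous_const continuous_const continuous_const hZc
    have h := hc.tendsto 0
    simp only [zero_mul, add_zero] at h
    exact h.mono_left nhdsWithin_le_nhds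
  have t2 := (hhom 4 (2 * n)).const_mul (D (1 / 2 : ℂ) (1 / 2) * D (1 / 2 : ℂ) (1 / 2))
  have hev : ∀ᶠ ε : ℂ in 𝓝[≠] 0,
      D (1 / 2 : ℂ) (1 / 2) * D (1 / 2 : ℂ) (1 / 2) * FF (fun _ : Fin 4 => 1 / 2)
        (fun i : Fin (2 * n) => 1 / 2 + ε * ((i : ℕ) + 1 : ℂ)) =
      G22 Φ n (1 / 2) (1 / 2) (1 / 2) (1 / 2)
        (fun i : Fin (2 * n) => 1 / 2 + ε * ((i : ℕ) + 1 : ℂ)) := by
    have e1 : ∀ᶠ ε : ℂ in 𝓝[≠] 0, ε ≠ 0 := self_mem_nhdsWithin
    have e2 : ∀ᶠ ε : ℂ in 𝓝[≠] 0, ∀ i j : Fin (2 * n),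
        D (1 / 2 + ε * ((i : ℕ) + 1 : ℂ)) (1 / 2 + ε * ((j : ℕ) + 1 : ℂ)) ≠ 0 := by
      rw [Filter.eventually_all]
      intro i
      rw [Filter.eventually_all]
      intro j
      have hc : Continuous fun ε : ℂ =>
          D (1 / 2 + ε * ((i : ℕ) + 1 : ℂ)) (1 / 2 + ε * ((j : ℕ) + 1 : ℂ)) :=
        cont_D (continuous_const.add (continuous_id.mul continuous_const))
          (continuous_const.add (continuous_id.mul continuous_const))
      have h := (hc.tendsto 0).mono_left (nhdsWithin_le_nhds (s := {0}ᶜ))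
      simp only [zero_mul, add_zero] at h
      exact h.eventually_ne (by rw [hDh]; norm_num)
    have e3 : ∀ c : ℂ, c ≠ 1 / 2 → ∀ᶠ ε : ℂ in 𝓝[≠] 0, ∀ i : Fin (2 * n),
        1 / 2 + ε * ((i : ℕ) + 1 : ℂ) ≠ c := by
      intro c hc
      rw [Filter.eventually_all]
      intro i
      have hc' : Continuous fun ε : ℂ => 1 / 2 + ε * ((i : ℕ) + 1 : ℂ) :=
        continuous_const.add (continuous_id.mul continuous_const)
      have h := (hc'.tendsto 0).mono_left (nhdsWithin_le_nhds (s := {0}ᶜ))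
      simp only [zero_mul, add_zero] at h
      exact h.eventually_ne (Ne.symm hc)
    filter_upwards [e1, e2, e3 0 (by norm_num), e3 1 (by norm_num)] with ε h1' h2' h3' h4'
    have hinj : Function.Injective (fun i : Fin (2 * n) => 1 / 2 + ε * ((i : ℕ) + 1 : ℂ)) := by
      intro i j hij
      simp only [add_right_inj, mul_eq_mul_left_iff, add_left_inj, Nat.cast_inj, h1', or_false]
        at hij
      exact Fin.ext hij
    rw [G22_eq_of hΦ h2 h3 n (1 / 2) (1 / 2) (1 / 2) (1 / 2) _ hinj h2' h3' h4']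
    congr 2
    funext i
    fin_cases i <;> rfl
  have t3 := t2.congr' hev
  have key := tendsto_nhds_unique t1 t3
  rw [key, hDh, ← mul_assoc]
  congr 1
  have hexp : (2 * n + 1) * (2 * n + 2) = 2 + (2 * n * (2 * n - 1) + 4 * (2 * n)) := by
    rcases n with _ | m
    · rfl
    · have : 2 * (m + 1) - 1 = 2 * m + 1 := by omega
      rw [this]; ring
  rw [hexp, pow_add]
  ring

end Pool.Agent.H63.Four
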